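import Pool.Agent.helper2.BB.Spec

/-! # Project bb, B4: `ff u` has parametric representation (helper82) -/

set_option autoImplicit false

namespace BB

open Metric MeasureTheory Set Filter Topology Asymptotics
open Pool.Agent.helper37.PR

theorem B4_exp {E : Type} [NormedAddCommGroup E] [NormedSpace ℂ E] [CompleteSpace E] (t : ℝ) (x : E) :
    (NormedSpace.exp ((t : ℂ) • (ContinuousLinearMap.id ℂ E))) x = (Real.exp t : ℂ) • x := by
  have h1 : ((t : ℂ) • (ContinuousLinearMap.id ℂ E)) = algebraMap ℂ (E →L[ℂ] E) (t : ℂ) := by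
    rw [Algebra.algebraMap_eq_smul_one]
    rfl
  rw [h1, ← NormedSpace.algebraMap_exp_comm, ← Complex.exp_eq_exp_ℂ, Complex.ofReal_exp,
    Algebra.algebraMap_eq_smul_one]
  rfl

/-- locally uniform convergence to a continuous limit in terms of the product filter -/
theorem B4_loc {X M : Type} [TopologicalSpace X] [PseudoMetricSpace M] {F : ℝ → X → M} {f : X → M} {s : Set X}
    (hf : ContinuousOn f s) :
    TendstoLocallyUniformlyOn F f atTop s ↔
      ∀ x ∈ s, Tendsto (fun y : ℝ × X => F y.1 y.2) (atTop ×ˢ 𝓝[s] x) (𝓝 (f x)) := by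
  rw [Metric.tendstoLocallyUniformlyOn_iff]
  constructor
  · intro h x hx
    rw [Metric.tendsto_nhds]
    intro ε hε
    obtain ⟨t, ht, hn⟩ := h (ε / 2) (by linarith) x hx
    have hc : ∀ᶠ y in 𝓝[s] x, dist (f y) (f x) < ε / 2 := by
      have := Metric.tendsto_nhds.1 (hf x hx) (ε / 2) (by linarith)
      exact this
    have h1 : ∀ᶠ y : ℝ × X in atTop ×ˢ 𝓝[s] x, (∀ z ∈ t, dist (f z) (F y.1 z) < ε / 2) ∧
        (y.2 ∈ t ∧ dist (f y.2) (f x) < ε / 2) := hn.prod_mk (Filter.Eventually.and ht hc)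
    filter_upwards [h1] with y hy
    have a1 := hy.1 y.2 hy.2.1
    have a2 := hy.2.2
    have a3 := dist_triangle (F y.1 y.2) (f y.2) (f x)
    rw [dist_comm (F y.1 y.2) (f y.2)] at a3
    linarith
  · intro h ε hε x hx
    have h1 := Metric.tendsto_nhds.1 (h x hx) (ε / 2) (by linarith)
    rw [Filter.eventually_prod_iff] at h1
    obtain ⟨pa, hpa, pb, hpb, hh⟩ := h1
    have hc : ∀ᶠ y in 𝓝[s] x, dist (f y) (f x) < ε / 2 :=
      Metric.tendsto_nhds.1 (hf x hx) (ε / 2) (by linarith)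
    refine ⟨{y | pb y ∧ dist (f y) (f x) < ε / 2}, hpb.and hc, ?_⟩
    filter_upwards [hpa] with n hn y hy
    have a1 := hh hn hy.1
    have a2 := hy.2
    have a3 := dist_triangle (f y) (f x) (F n y)
    rw [dist_comm (f x) (F n y)] at a3
    simp only at a1
    linarith

section

variable {E : Type} [NormedAddCommGroup E] [InnerProductSpace ℂ E] [CompleteSpace E]

theorem B4_w {u z : E} (hu : ‖u‖ = 1) (hz : z ∈ ball (0 : E) 1) : (inner ℂ u z : ℂ) ∈ ball (0 : ℂ) 1 := by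
  rw [mem_ball_zero_iff] at hz ⊢
  have := norm_inner_le_norm (𝕜 := ℂ) u z
  rw [hu, one_mul] at this
  linarith

theorem B4_ne {w : ℂ} (hw : w ∈ ball (0 : ℂ) 1) : (1 - w) ^ 2 ≠ 0 := by
  rw [mem_ball_zero_iff] at hw
  apply pow_ne_zero
  intro h
  have : w = 1 := by linear_combination -h
  rw [this, norm_one] at hw
  exact lt_irrefl _ hw

theorem B4_anc (hA4 : A4_stmt) (u : E) (hu : ‖u‖ = 1) :
    AnalyticOnNhd ℂ (fun z : E => ((1 - (inner ℂ u z : ℂ)) ^ 2)⁻¹) (ball 0 1) ∧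
    AnalyticOnNhd ℂ (fun z : E => Rf (inner ℂ u z)) (ball 0 1) ∧
    AnalyticOnNhd ℂ (fun z : E => (inner ℂ u z : ℂ)) (ball 0 1) := by
  have hL : ∀ z : E, AnalyticAt ℂ (fun z : E => (inner ℂ u z : ℂ)) z := fun z => (innerSL ℂ u).analyticAt z
  refine ⟨fun z hz => ?_, fun z hz => ?_, fun z _ => hL z⟩
  · exact ((analyticAt_const.sub (hL z)).pow 2).inv (B4_ne (B4_w hu hz))
  · have := (hA4 1 one_pos le_rfl).1 (inner ℂ u z : ℂ) (B4_w hu hz)
    exact this.comp (g := Rf) (f := fun z : E => (inner ℂ u z : ℂ)) (hL z)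

theorem B4_an (hA4 : A4_stmt) (u : E) (hu : ‖u‖ = 1) : AnalyticOnNhd ℂ (ff u) (ball 0 1) := by
  obtain ⟨h1, h2, h3⟩ := B4_anc hA4 u hu
  intro z hz
  exact (h1 z hz).smul (((h3 z hz).smul analyticAt_const).add
    ((h2 z hz).smul (analyticAt_id.sub ((h3 z hz).smul analyticAt_const))))

theorem B4_der (hA2 : A2_stmt) (hA4 : A4_stmt) (u : E) (hu : ‖u‖ = 1) :
    HasFDerivAt (ff u) (ContinuousLinearMap.id ℂ E) 0 := by
  obtain ⟨h1, h2, h3⟩ := B4_anc hA4 u hu
  have h0 : (0 : E) ∈ ball (0 : E) 1 := mem_ball_self one_pos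
  have hR : Rf 0 = 1 := (hA2 1 0 one_pos le_rfl (by simp)).2.2.2.2.2.2.2.2.1
  have hL : HasFDerivAt (fun z : E => (inner ℂ u z : ℂ)) (innerSL ℂ u) 0 := (innerSL ℂ u).hasFDerivAt
  have hLu : HasFDerivAt (fun z : E => (inner ℂ u z : ℂ) • u) ((innerSL ℂ u).smulRight u) 0 :=
    ((innerSL ℂ u).smulRight u).hasFDerivAt
  have hz : HasFDerivAt (fun z : E => z - (inner ℂ u z : ℂ) • u)
      (ContinuousLinearMap.id ℂ E - (innerSL ℂ u).smulRight u) 0 := (hasFDerivAt_id (0 : E)).sub hLu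
  have hRf := (h2 0 h0).differentiableAt.hasFDerivAt.smul hz
  have hg := hLu.add hRf
  have hall := (h1 0 h0).differentiableAt.hasFDerivAt.smul hg
  refine hall.congr_fderiv ?_
  ext v
  simp [hR]

/-- the flow of one point is locally absolutely continuous -/
theorem B4_ac (hB1 : B1_stmt) (hB2 : B2_stmt) (hB3 : B3_stmt) (u z : E) (hu : ‖u‖ = 1) (hz : z ∈ ball (0 : E) 1)
    (T : ℝ) (hT : 0 ≤ T) :
    AbsolutelyContinuousOnInterval (fun t : ℝ => VV true u (Real.exp (-t)) z) 0 T := by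
  have hz' : ‖z‖ < 1 := mem_ball_zero_iff.1 hz
  have hd := (hB2 E true u z hu hz').2
  have hcont : ContinuousOn (fun t : ℝ => VV true u (Real.exp (-t)) z) (Icc 0 T) :=
    fun t ht => (hd t ht.1).continuousAt.continuousWithinAt
  have hmap : MapsTo (fun t : ℝ => VV true u (Real.exp (-t)) z) (Icc 0 T) (ball (0 : E) 1) := by
    intro t ht
    rw [mem_ball_zero_iff]
    exact (hB3 E true u z t hu hz' ht.1).trans_lt hz'
  have hh := ((hB1 E true u hu).an.continuousOn.comp hcont hmap)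
  obtain ⟨C, hC⟩ := isCompact_Icc.exists_bound_of_continuousOn hh
  have hlip : LipschitzOnWith (Real.toNNReal C) (fun t : ℝ => VV true u (Real.exp (-t)) z) (uIcc 0 T) := by
    rw [uIcc_of_le hT]
    apply LipschitzOnWith.of_dist_le_mul
    intro x hx y hy
    rw [dist_eq_norm, dist_eq_norm]
    have := (convex_Icc (0 : ℝ) T).norm_image_sub_le_of_norm_hasDerivWithin_le (C := max C 0)
      (f' := fun t => -(hf true u (VV true u (Real.exp (-t)) z)))
      (fun t ht => (hd t ht.1).hasDerivWithinAt)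
      (fun t ht => by rw [norm_neg]; exact (hC t ht).trans (le_max_left _ _)) hy hx
    rw [Real.coe_toNNReal']
    exact this
  exact hlip.absolutelyContinuousOnInterval

end

theorem B4 (hA2 : A2_stmt) (hA4 : A4_stmt) (hA5 : A5_stmt) (hB1 : B1_stmt) (hB2 : B2_stmt) (hB3 : B3_stmt) :
    B4_stmt := by
  intro E _ _ _ _ u hu
  have han := B4_an hA4 u hu
  refine ⟨han, ?_, (B4_der hA2 hA4 u hu).fderiv, fun z _ => hf true u z,
    fun z t => VV true u (Real.exp (-t)) z, ⟨?_, ?_⟩, ⟨?_, ?_, ?_, ?_⟩, ?_⟩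
  · simp [ff]
  · exact Eventually.of_forall fun t _ => hB1 E true u hu
  · exact fun z _ => aestronglyMeasurable_const
  · intro z hz t ht
    rw [mem_ball_zero_iff] at hz ⊢
    exact (hB3 E true u z t hu hz ht).trans_lt hz
  · intro z hz
    simp only [neg_zero, Real.exp_zero]
    exact (hB2 E true u z hu (mem_ball_zero_iff.1 hz)).1
  · exact fun z hz T hT => B4_ac hB1 hB2 hB3 u z hu hz T hT
  · intro z hz
    exact Eventually.of_forall fun t ht => (hB2 E true u z hu (mem_ball_zero_iff.1 hz)).2 t ht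
  · rw [B4_loc han.continuousOn]
    intro x hx
    obtain ⟨hA5a, hA5b⟩ := hA5
    have hca : ContinuousOn (fun w : ℂ => ((1 - w) ^ 2)⁻¹) (ball (0 : ℂ) 1) :=
      ((continuousOn_const.sub continuousOn_id).pow 2).inv₀ fun w hw => B4_ne hw
    have hcb : ContinuousOn Rf (ball (0 : ℂ) 1) := (hA4 1 one_pos le_rfl).1.continuousOn
    rw [B4_loc hca] at hA5a
    rw [B4_loc hcb] at hA5b
    have hL : Tendsto (fun y : ℝ × E => (inner ℂ u y.2 : ℂ)) (atTop ×ˢ 𝓝[ball (0 : E) 1] x)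
        (𝓝[ball (0 : ℂ) 1] (inner ℂ u x)) := by
      have h1 : Tendsto (fun z : E => (inner ℂ u z : ℂ)) (𝓝[ball (0 : E) 1] x) (𝓝[ball (0 : ℂ) 1] (inner ℂ u x)) := by
        apply tendsto_nhdsWithin_of_tendsto_nhds_of_eventually_within
        · exact ((innerSL ℂ u).continuous.tendsto x).mono_left nhdsWithin_le_nhds
        · filter_upwards [self_mem_nhdsWithin] with z hz
          exact B4_w hu hz
      exact h1.comp tendsto_snd
    have hL' : Tendsto (fun y : ℝ × E => (inner ℂ u y.2 : ℂ)) (atTop ×ˢ 𝓝[ball (0 : E) 1] x)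
        (𝓝 (inner ℂ u x)) := hL.mono_right nhdsWithin_le_nhds
    have hz : Tendsto (fun y : ℝ × E => y.2) (atTop ×ˢ 𝓝[ball (0 : E) 1] x) (𝓝 x) :=
      tendsto_snd.mono_right nhdsWithin_le_nhds
    have hpair : Tendsto (fun y : ℝ × E => (y.1, (inner ℂ u y.2 : ℂ))) (atTop ×ˢ 𝓝[ball (0 : E) 1] x)
        (atTop ×ˢ 𝓝[ball (0 : ℂ) 1] (inner ℂ u x)) := tendsto_fst.prodMk hL
    have ta := (hA5a _ (B4_w hu hx)).comp hpair
    have tb := (hA5b _ (B4_w hu hx)).comp hpair
    have hu' : Tendsto (fun _ : ℝ × E => u) (atTop ×ˢ 𝓝[ball (0 : E) 1] x) (𝓝 u) := tendsto_const_nhds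
    have hfin := ta.smul ((hL'.smul hu').add (tb.smul (hz.sub (hL'.smul hu'))))
    refine hfin.congr fun y => ?_
    rw [B4_exp]
    simp only [Function.comp_apply, VV, smul_smul]

end BB
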